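import Pool.Agent.Lib.P52.C

/-! Almost every `n` divides `π(kn)` for some `k ≤ exp(n (log n)^c)`, for every `c > log 2`. -/

theorem Pool.Agent.Results.MP_52b4cc_nt.AlmostAll.result (c : ℝ) (hc : Real.log 2 < c) :
    ∃ η : ℝ, 0 < η ∧ ∃ C : ℝ, ∀ N : ℕ, 2 ≤ N →
      (({n : ℕ | 1 ≤ n ∧ n ≤ N ∧ ¬ ∃ k : ℕ, 1 ≤ k ∧ (k : ℝ) ≤ Real.exp (n * Real.log n ^ c) ∧
        n ∣ Nat.primeCounting (k * n)}.ncard : ℕ) : ℝ) ≤ C * N / Real.log N ^ η :=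
  P52.p52_final hc
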