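import Pool.Agent.Lib.P52.R11

/-! In the Cramér model the number of exceptions up to `N` is almost surely
`(e + o(1)) log log N`. -/

theorem Pool.Agent.Results.MP_52b4cc_nt.CramerModel.result {Ω : Type} [MeasurableSpace Ω]
    (P : MeasureTheory.Measure Ω) [MeasureTheory.IsProbabilityMeasure P] (A : ℕ → Set Ω)
    (hm : ∀ m, MeasurableSet (A m)) (hi : ProbabilityTheory.iIndepSet A P)
    (hp : ∀ m : ℕ, 3 ≤ m → P.real (A m) = 1 / Real.log m) :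
    ∀ᵐ ω ∂P, Filter.Tendsto (fun N : ℕ =>
      (({n : ℕ | 1 ≤ n ∧ n ≤ N ∧ ¬ ∃ k : ℕ, 1 ≤ k ∧ k < Nat.nth (fun m => ω ∈ A m) (n - 1) ∧
        n ∣ {m : ℕ | m ≤ k * n ∧ ω ∈ A m}.ncard}.ncard : ℕ) : ℝ) / Real.log (Real.log N))
      Filter.atTop (nhds (Real.exp 1)) :=
  P52.cramer hm hi hp
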